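import Mathlib
import Pool.Agent.Helper48.AA.Goals

/-!
Project AA (MP_6c0525_nt), packet MA: coprime tuples (helper25).
-/

set_option autoImplicit false

open Finset

open scoped Classical

namespace Pool.Agent.Helper25.AA

open Pool.Agent.Helper48.AA

/-- the number of members of a residue class in an interval -/
lemma cnt (X r v : ℕ) (hr : 0 < r) :
    |(((Icc 1 X).filter (fun x => x ≡ v [MOD r])).card : ℝ) - (X : ℝ) / r| ≤ 1 := by
  have e : Icc 1 X = Ioc 0 X := by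
    ext x
    rw [mem_Icc, mem_Ioc]
    omega
  rw [e]
  have h := Nat.Ioc_filter_modEq_card 0 X hr v
  set f1 : ℤ := ⌊((X : ℚ) - v) / (r : ℚ)⌋ with hf1
  set f2 : ℤ := ⌊(((0 : ℕ) : ℚ) - v) / (r : ℚ)⌋ with hf2
  have a1 := Int.floor_le (((X : ℚ) - v) / (r : ℚ))
  have a2 := Int.lt_floor_add_one (((X : ℚ) - v) / (r : ℚ))
  have b1 := Int.floor_le ((((0 : ℕ) : ℚ) - v) / (r : ℚ))
  have b2 := Int.lt_floor_add_one ((((0 : ℕ) : ℚ) - v) / (r : ℚ))
  rw [← hf1] at a1 a2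
  rw [← hf2] at b1 b2
  have hq : (0 : ℚ) < r := by exact_mod_cast hr
  have e1 : ((X : ℚ) - v) / (r : ℚ) = (X : ℚ) / r - v / r := by ring
  have e2 : (((0 : ℕ) : ℚ) - v) / (r : ℚ) = -((v : ℚ) / r) := by
    rw [Nat.cast_zero]
    ring
  rw [e1] at a1 a2
  rw [e2] at b1 b2
  have hX : (0 : ℚ) ≤ (X : ℚ) / r := by positivity
  have key : |(((Ioc 0 X).filter (fun x => x ≡ v [MOD r])).card : ℚ) - (X : ℚ) / r| ≤ 1 := by
    have hc : (((Ioc 0 X).filter (fun x => x ≡ v [MOD r])).card : ℚ) =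
        max ((f1 : ℚ) - f2) 0 := by
      have h' : ((((Ioc 0 X).filter (fun x => x ≡ v [MOD r])).card : ℤ) : ℚ) =
          ((max (f1 - f2) 0 : ℤ) : ℚ) := by
        rw [← h]
      rw [Int.cast_natCast] at h'
      rw [h']
      push_cast
      rfl
    rw [hc, abs_le]
    constructor
    · have := le_max_left ((f1 : ℚ) - f2) 0
      linarith
    · have : max ((f1 : ℚ) - f2) 0 ≤ (X : ℚ) / r + 1 := by
        apply max_le
        · linarith
        · linarith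
      linarith
  have key' : ((|(((Ioc 0 X).filter (fun x => x ≡ v [MOD r])).card : ℚ) - (X : ℚ) / r| : ℚ) : ℝ)
      ≤ ((1 : ℚ) : ℝ) := by
    exact_mod_cast key
  push_cast at key'
  exact key'

lemma lcm_facts (d : Fin 4 → ℕ) (hd : ∀ i, 1 ≤ d i)
    (hc : ∀ i, i ≠ 0 → Nat.Coprime (d 0) (d i)) (U : Finset (Fin 4)) (hU : (0 : Fin 4) ∉ U) :
    0 < U.lcm d ∧ Nat.Coprime (d 0) (U.lcm d) := by
  induction U using Finset.induction_on with
  | empty => simp
  | insert j U hj ih =>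
    rw [mem_insert, not_or] at hU
    obtain ⟨h1, h2⟩ := ih hU.2
    rw [Finset.lcm_insert]
    refine ⟨?_, ?_⟩
    · exact Nat.pos_of_ne_zero (Nat.lcm_ne_zero (by have := hd j; omega) (by omega))
    · exact Nat.Coprime.coprime_dvd_right (Nat.lcm_dvd_mul _ _)
        (Nat.Coprime.mul_right (hc j (fun h => hU.1 h.symm)) h2)

lemma dvd_iff_modEq {d x y a : ℕ} (hy : d ∣ y + a) : d ∣ x + a ↔ x ≡ y [MOD d] := by
  have hy' : y + a ≡ 0 [MOD d] := (Nat.modEq_zero_iff_dvd).2 hy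
  constructor
  · intro h
    have h' : x + a ≡ 0 [MOD d] := (Nat.modEq_zero_iff_dvd).2 h
    exact Nat.ModEq.add_right_cancel' a (h'.trans hy'.symm)
  · intro h
    exact (Nat.modEq_zero_iff_dvd).1 ((Nat.ModEq.add_right a h).trans hy')

lemma key (d a : Fin 4 → ℕ) (X : ℕ) (hd : ∀ i, 1 ≤ d i)
    (hc : ∀ i, i ≠ 0 → Nat.Coprime (d 0) (d i)) (U : Finset (Fin 4)) (hU : (0 : Fin 4) ∉ U) :
    |∑ x ∈ Icc 1 X, (if ∀ i ∈ U, d i ∣ x + a i then (1 : ℝ) else 0) *
      ((if d 0 ∣ x + a 0 then (1 : ℝ) else 0) - 1 / (d 0 : ℝ))| ≤ 2 := by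
  by_cases hA : ∃ x0 : ℕ, ∀ i ∈ U, d i ∣ x0 + a i
  · obtain ⟨x0, hx0⟩ := hA
    obtain ⟨hm, hco⟩ := lcm_facts d hd hc U hU
    set m := U.lcm d with hmdef
    have hiff : ∀ x : ℕ, (∀ i ∈ U, d i ∣ x + a i) ↔ x ≡ x0 [MOD m] := by
      intro x
      have h1 : (∀ i ∈ U, d i ∣ x + a i) ↔ ∀ i ∈ U, x ≡ x0 [MOD d i] := by
        constructor
        · intro h i hi
          exact (dvd_iff_modEq (hx0 i hi)).1 (h i hi)
        · intro h i hi
          exact (dvd_iff_modEq (hx0 i hi)).2 (h i hi)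
      rw [h1, Nat.modEq_iff_dvd, Int.natCast_dvd, hmdef, Finset.lcm_dvd_iff]
      refine forall₂_congr fun i _ => ?_
      rw [Nat.modEq_iff_dvd, Int.natCast_dvd]
    have hd0 := hd 0
    obtain ⟨x1, hx1, hx1'⟩ := Nat.chineseRemainder hco.symm x0 (a 0 * (d 0 - 1))
    have hr : d 0 ∣ x1 + a 0 := by
      have h2 : d 0 ∣ a 0 * (d 0 - 1) + a 0 := by
        have : a 0 * (d 0 - 1) + a 0 = a 0 * d 0 := by
          obtain ⟨e, he⟩ : ∃ e, d 0 = e + 1 := ⟨d 0 - 1, by omega⟩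
          rw [he]
          simp
          ring
        rw [this]
        exact Dvd.intro_left _ rfl
      exact (dvd_iff_modEq h2).2 hx1'
    have hiff2 : ∀ x : ℕ, (x ≡ x0 [MOD m] ∧ d 0 ∣ x + a 0) ↔ x ≡ x1 [MOD m * d 0] := by
      intro x
      rw [dvd_iff_modEq hr, ← Nat.modEq_and_modEq_iff_modEq_mul hco.symm]
      constructor
      · rintro ⟨h3, h4⟩
        exact ⟨h3.trans hx1.symm, h4⟩
      · rintro ⟨h3, h4⟩
        exact ⟨h3.trans hx1, h4⟩
    have hsum : ∑ x ∈ Icc 1 X, (if ∀ i ∈ U, d i ∣ x + a i then (1 : ℝ) else 0) *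
        ((if d 0 ∣ x + a 0 then (1 : ℝ) else 0) - 1 / (d 0 : ℝ)) =
        (((Icc 1 X).filter (fun x => x ≡ x1 [MOD m * d 0])).card : ℝ) -
        1 / (d 0 : ℝ) * (((Icc 1 X).filter (fun x => x ≡ x0 [MOD m])).card : ℝ) := by
      rw [Finset.card_filter, Finset.card_filter]
      push_cast
      rw [Finset.mul_sum, ← Finset.sum_sub_distrib]
      refine Finset.sum_congr rfl fun x _ => ?_
      by_cases h5 : x ≡ x0 [MOD m]
      · rw [if_pos ((hiff x).2 h5), if_pos h5]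
        by_cases h6 : d 0 ∣ x + a 0
        · rw [if_pos h6, if_pos ((hiff2 x).1 ⟨h5, h6⟩)]
          ring
        · rw [if_neg h6, if_neg (fun h => h6 ((hiff2 x).2 h).2)]
          ring
      · rw [if_neg (fun h => h5 ((hiff x).1 h)), if_neg h5, if_neg (fun h => h5 ((hiff2 x).2 h).1)]
        ring
    rw [hsum]
    have c1 := cnt X (m * d 0) x1 (Nat.mul_pos hm (by omega))
    have c2 := cnt X m x0 hm
    set n1 : ℝ := (((Icc 1 X).filter (fun x => x ≡ x1 [MOD m * d 0])).card : ℝ)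
    set n2 : ℝ := (((Icc 1 X).filter (fun x => x ≡ x0 [MOD m])).card : ℝ)
    have hd0' : (1 : ℝ) ≤ d 0 := by exact_mod_cast hd0
    have hm' : (0 : ℝ) < m := by exact_mod_cast hm
    have e3 : n1 - 1 / (d 0 : ℝ) * n2 =
        (n1 - (X : ℝ) / ((m * d 0 : ℕ) : ℝ)) - 1 / (d 0 : ℝ) * (n2 - (X : ℝ) / m) := by
      push_cast
      field_simp
      ring
    rw [e3]
    have h7 : |1 / (d 0 : ℝ) * (n2 - (X : ℝ) / m)| ≤ 1 := by
      rw [abs_mul]
      have h8 : |1 / (d 0 : ℝ)| ≤ 1 := by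
        rw [abs_of_nonneg (by positivity), div_le_one (by linarith)]
        exact hd0'
      calc |1 / (d 0 : ℝ)| * |n2 - (X : ℝ) / m| ≤ 1 * 1 :=
            mul_le_mul h8 c2 (abs_nonneg _) (by norm_num)
        _ = 1 := by norm_num
    calc |(n1 - (X : ℝ) / ((m * d 0 : ℕ) : ℝ)) - 1 / (d 0 : ℝ) * (n2 - (X : ℝ) / m)|
        ≤ |n1 - (X : ℝ) / ((m * d 0 : ℕ) : ℝ)| + |1 / (d 0 : ℝ) * (n2 - (X : ℝ) / m)| :=
          abs_sub _ _
      _ ≤ 1 + 1 := add_le_add c1 h7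
      _ = 2 := by norm_num
  · have h9 : ∑ x ∈ Icc 1 X, (if ∀ i ∈ U, d i ∣ x + a i then (1 : ℝ) else 0) *
        ((if d 0 ∣ x + a 0 then (1 : ℝ) else 0) - 1 / (d 0 : ℝ)) = 0 := by
      refine Finset.sum_eq_zero fun x _ => ?_
      rw [if_neg (fun h => hA ⟨x, h⟩), zero_mul]
    rw [h9, abs_zero]
    norm_num

lemma ex (d a : Fin 4 → ℕ) (X : ℕ) (hd : ∀ i, 1 ≤ d i)
    (hc : ∀ i, i ≠ 0 → Nat.Coprime (d 0) (d i)) (W : Finset (Fin 4)) :
    ∀ U : Finset (Fin 4), (0 : Fin 4) ∉ U → (0 : Fin 4) ∉ W →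
    |∑ x ∈ Icc 1 X, (if ∀ i ∈ U, d i ∣ x + a i then (1 : ℝ) else 0) *
      ((if d 0 ∣ x + a 0 then (1 : ℝ) else 0) - 1 / (d 0 : ℝ)) *
      ∏ i ∈ W, ((if d i ∣ x + a i then (1 : ℝ) else 0) - 1 / (d i : ℝ))| ≤ 2 * 2 ^ W.card := by
  induction W using Finset.induction_on with
  | empty =>
    intro U hU _
    have := key d a X hd hc U hU
    simpa using this
  | insert j W hj ih =>
    intro U hU hW
    rw [mem_insert, not_or] at hW
    have h1 := ih (insert j U) (by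
      rw [mem_insert, not_or]
      exact ⟨hW.1, hU⟩) hW.2
    have h2 := ih U hU hW.2
    have e : ∑ x ∈ Icc 1 X, (if ∀ i ∈ U, d i ∣ x + a i then (1 : ℝ) else 0) *
        ((if d 0 ∣ x + a 0 then (1 : ℝ) else 0) - 1 / (d 0 : ℝ)) *
        ∏ i ∈ insert j W, ((if d i ∣ x + a i then (1 : ℝ) else 0) - 1 / (d i : ℝ)) =
        (∑ x ∈ Icc 1 X, (if ∀ i ∈ insert j U, d i ∣ x + a i then (1 : ℝ) else 0) *
        ((if d 0 ∣ x + a 0 then (1 : ℝ) else 0) - 1 / (d 0 : ℝ)) *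
        ∏ i ∈ W, ((if d i ∣ x + a i then (1 : ℝ) else 0) - 1 / (d i : ℝ))) -
        1 / (d j : ℝ) * (∑ x ∈ Icc 1 X, (if ∀ i ∈ U, d i ∣ x + a i then (1 : ℝ) else 0) *
        ((if d 0 ∣ x + a 0 then (1 : ℝ) else 0) - 1 / (d 0 : ℝ)) *
        ∏ i ∈ W, ((if d i ∣ x + a i then (1 : ℝ) else 0) - 1 / (d i : ℝ))) := by
      rw [Finset.mul_sum, ← Finset.sum_sub_distrib]
      refine Finset.sum_congr rfl fun x _ => ?_
      rw [Finset.prod_insert hj]
      have h3 : (if ∀ i ∈ insert j U, d i ∣ x + a i then (1 : ℝ) else 0) =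
          (if d j ∣ x + a j then (1 : ℝ) else 0) *
          (if ∀ i ∈ U, d i ∣ x + a i then (1 : ℝ) else 0) := by
        by_cases h4 : d j ∣ x + a j
        · by_cases h5 : ∀ i ∈ U, d i ∣ x + a i
          · rw [if_pos h4, if_pos h5, if_pos, one_mul]
            intro i hi
            rcases mem_insert.1 hi with rfl | hi
            · exact h4
            · exact h5 i hi
          · rw [if_neg h5, if_neg, mul_zero]
            intro h6
            exact h5 fun i hi => h6 i (mem_insert_of_mem hi)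
        · rw [if_neg h4, if_neg, zero_mul]
          intro h6
          exact h4 (h6 j (mem_insert_self _ _))
      rw [h3]
      ring
    rw [e]
    have hdj : (1 : ℝ) ≤ d j := by exact_mod_cast hd j
    have h8 : |1 / (d j : ℝ)| ≤ 1 := by
      rw [abs_of_nonneg (by positivity), div_le_one (by linarith)]
      exact hdj
    refine (abs_sub _ _).trans ?_
    rw [abs_mul, card_insert_of_notMem hj, pow_succ]
    have h10 : |1 / (d j : ℝ)| * |∑ x ∈ Icc 1 X,
        (if ∀ i ∈ U, d i ∣ x + a i then (1 : ℝ) else 0) *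
        ((if d 0 ∣ x + a 0 then (1 : ℝ) else 0) - 1 / (d 0 : ℝ)) *
        ∏ i ∈ W, ((if d i ∣ x + a i then (1 : ℝ) else 0) - 1 / (d i : ℝ))| ≤
        1 * (2 * 2 ^ W.card) := mul_le_mul h8 h2 (abs_nonneg _) (by norm_num)
    linarith

theorem gMA : StmtMA := by
  intro d a X hd hc
  have h := ex d a X hd hc {1, 2, 3} ∅ (by simp) (by decide)
  have e : ∀ x : ℕ, ∏ i, ((if d i ∣ x + a i then (1 : ℝ) else 0) - 1 / (d i : ℝ)) =
      (if ∀ i ∈ (∅ : Finset (Fin 4)), d i ∣ x + a i then (1 : ℝ) else 0) *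
      ((if d 0 ∣ x + a 0 then (1 : ℝ) else 0) - 1 / (d 0 : ℝ)) *
      ∏ i ∈ ({1, 2, 3} : Finset (Fin 4)),
        ((if d i ∣ x + a i then (1 : ℝ) else 0) - 1 / (d i : ℝ)) := by
    intro x
    rw [if_pos (by simp), one_mul, Fin.prod_univ_four, Finset.prod_insert (by decide),
      Finset.prod_insert (by decide), Finset.prod_singleton]
    ring
  rw [Finset.sum_congr rfl fun x _ => e x]
  refine h.trans ?_
  have : ({1, 2, 3} : Finset (Fin 4)).card = 3 := by decide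
  rw [this]
  norm_num

end Pool.Agent.Helper25.AA
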